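import Pool.Agent.BraidOut.Complexity

set_option autoImplicit false

namespace Pool.Agent.Results.MP_45b0de_al.OutermostCurveNeverSimplified

open Pool.Agent.BraidSliding Pool.Agent.BraidOut

/-- There are a reducible braid `x` on `5` strands and an essential and outermost reduction curve
`C` of `x` of complexity `2` such that the sequence of braids and curves obtained from `(x, C)` by
iterated cyclic sliding exists, has the period two, and all its curves have complexity `2`: the
complexity never drops. -/
theorem result : ∃ (x : Braid 5) (C : Loop 5), IsReducible x ∧ IsEssential x C ∧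
    IsOutermost x C ∧ complexity C = 2 ∧ (∃ xs Cs, IsSlidingOrbit x C xs Cs) ∧
    ∀ xs Cs, IsSlidingOrbit x C xs Cs → ∀ k : ℕ, complexity (Cs k) = 2 ∧
      xs (k + 2) = xs k ∧ Cs (k + 2) = Cs k :=
  main'

end Pool.Agent.Results.MP_45b0de_al.OutermostCurveNeverSimplified
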